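import Pool.Agent.H34.RM.Rows

/-!
Project RM (MP_28724c_co): the symmetry of the two colours.
-/

open Finset

namespace Pool.Agent.H74.RM

open Pool.Agent.H92 Pool.Agent.H34.RM

variable {V : Type} [DecidableEq V] (G : SimpleGraph V) [DecidableRel G.Adj]

theorem rI_compl (x y : V) : rI Gᶜ x y = bI G x y := by
  unfold rI bI
  refine if_congr ?_ rfl rfl
  rw [SimpleGraph.compl_adj, ne_comm]

theorem bI_compl (x y : V) : bI Gᶜ x y = rI G x y := by
  unfold rI bI
  refine if_congr ?_ rfl rfl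
  rw [SimpleGraph.compl_adj]
  constructor
  · rintro ⟨h1, h2⟩
    by_contra h3
    exact h2 ⟨h1.symm, h3⟩
  · intro h
    exact ⟨h.ne', fun h2 => h2.2 h⟩

theorem dR_compl (Y : Finset V) (nu : V → ℝ) (x : V) : dR Gᶜ Y nu x = dB G Y nu x := by
  unfold dR dB
  exact Finset.sum_congr rfl fun y _ => by rw [rI_compl]

theorem dB_compl (Y : Finset V) (nu : V → ℝ) (x : V) : dB Gᶜ Y nu x = dR G Y nu x := by
  unfold dR dB
  exact Finset.sum_congr rfl fun y _ => by rw [bI_compl]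

theorem wt_compl (q p : ℝ) (w w' : ℕ) (Y Z : Finset V) (nu ze : V → ℝ) (x : V) :
    wt Gᶜ p q w' w Z Y ze nu x = wt G q p w w' Y Z nu ze x := by
  unfold wt
  rw [dR_compl, dB_compl, mul_comm]

theorem SS_compl (q p : ℝ) (w w' : ℕ) (X Y Z : Finset V) (nu ze : V → ℝ) :
    SS Gᶜ p q w' w X Z Y ze nu = SS G q p w w' X Y Z nu ze := by
  unfold SS
  exact Finset.sum_congr rfl fun x _ => wt_compl G q p w w' Y Z nu ze x

theorem PP_compl (a b c d q p : ℝ) (w w' : ℕ) (X Y Z : Finset V) (nu ze : V → ℝ) :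
    PP Gᶜ a c b d p q w' w X Z Y ze nu = PP G a b c d q p w w' X Y Z nu ze := by
  unfold PP
  rw [SS_compl, add_comm]

theorem KR_compl (Y : Finset V) (nu : V → ℝ) (x x' : V) : KR Gᶜ Y nu x x' = KB G Y nu x x' := by
  unfold KR KB
  rw [dR_compl, dR_compl]
  congr 1
  exact Finset.sum_congr rfl fun y _ => by rw [rI_compl, rI_compl]

theorem KB_compl (Y : Finset V) (nu : V → ℝ) (x x' : V) : KB Gᶜ Y nu x x' = KR G Y nu x x' := by
  unfold KR KB
  rw [dB_compl, dB_compl]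
  congr 1
  exact Finset.sum_congr rfl fun y _ => by rw [bI_compl, bI_compl]

theorem rN_compl (x : V) (X : Finset V) : rN Gᶜ x X = bN G x X := by
  ext y
  simp only [rN, bN, mem_filter, SimpleGraph.compl_adj]
  rw [ne_comm]

theorem bN_compl (x : V) (X : Finset V) : bN Gᶜ x X = rN G x X := by
  ext y
  simp only [rN, bN, mem_filter, SimpleGraph.compl_adj]
  constructor
  · rintro ⟨h0, h1, h2⟩
    refine ⟨h0, ?_⟩
    by_contra h3
    exact h2 ⟨h1.symm, h3⟩
  · rintro ⟨h0, h⟩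
    exact ⟨h0, h.ne', fun h2 => h2.2 h⟩

end Pool.Agent.H74.RM
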