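import Pool.Agent.H74.RM.RowDE
import Pool.Agent.H74.RM.Sym

/-!
Project RM (MP_28724c_co), F1 and F2: consequences of maximality for the sums.
-/

open Finset

namespace Pool.Agent.H74.RM

open Pool.Agent.H92 Pool.Agent.H34.RM

section

variable {V : Type} [DecidableEq V] {G : SimpleGraph V} [DecidableRel G.Adj]

/-- the Renyi sum -/
noncomputable def Rn (d : ℝ) (Y : Finset V) (nu : V → ℝ) : ℝ := ∑ y ∈ Y, nu y ^ (1 + d)

theorem Rn_pos {d : ℝ} {Y : Finset V} {nu : V → ℝ} (h : IsProb Y nu) : 0 < Rn d Y nu := by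
  have h1 : ∃ y ∈ Y, nu y ≠ 0 := by
    by_contra hn
    push Not at hn
    have h2 := h.sum
    rw [Finset.sum_eq_zero hn] at h2
    exact zero_ne_one h2
  obtain ⟨y, hy, hy0⟩ := h1
  have h3 : 0 < nu y := lt_of_le_of_ne (h.nonneg y) (Ne.symm hy0)
  exact Finset.sum_pos' (fun z _ => Real.rpow_nonneg (h.nonneg z) _)
    ⟨y, hy, Real.rpow_pos_of_pos h3 _⟩

theorem wt_nonneg (q p : ℝ) (w w' : ℕ) (Y Z : Finset V) (nu ze : V → ℝ) (x : V) :
    0 ≤ wt G q p w w' Y Z nu ze x := by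
  unfold wt
  positivity

theorem SS_nonneg (q p : ℝ) (w w' : ℕ) (X Y Z : Finset V) (nu ze : V → ℝ) :
    0 ≤ SS G q p w w' X Y Z nu ze := Finset.sum_nonneg fun x _ => wt_nonneg _ _ _ _ _ _ _ _ x

/-- F1: the ratio of the sums from maximality. -/
theorem ratio {a b c d q p : ℝ} (ha : 0 < a) (hd : 0 < d) {w w' : ℕ} {X Y Z : Finset V}
    {nu ze nu' : V → ℝ} (hnu : IsProb Y nu) (hze : IsProb Z ze) (hnu' : IsProb Y nu')
    (hmax : ∀ nu' ze' : V → ℝ, IsProb Y nu' → IsProb Z ze' →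
      PP G a b c d q p w w' X Y Z nu' ze' ≤ PP G a b c d q p w w' X Y Z nu ze) :
    SS G q p w w' X Y Z nu' ze
      ≤ (Rn d Y nu' / Rn d Y nu) ^ (b / (a * d)) * SS G q p w w' X Y Z nu ze := by
  have h := hmax nu' ze hnu' hze
  have hS := SS_nonneg (G := G) q p w w' X Y Z nu ze
  have hS' := SS_nonneg (G := G) q p w w' X Y Z nu' ze
  have hR := Rn_pos (d := d) hnu
  have hR' := Rn_pos (d := d) hnu'
  have hq : 0 < Rn d Y nu' / Rn d Y nu := div_pos hR' hR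
  unfold PP at h
  have e1 : b * lsz d Y nu' + c * lsz d Z ze = -(b / d) * Real.log (Rn d Y nu')
      + c * lsz d Z ze := by
    unfold lsz Rn
    ring
  have e2 : b * lsz d Y nu + c * lsz d Z ze = -(b / d) * Real.log (Rn d Y nu)
      + c * lsz d Z ze := by
    unfold lsz Rn
    ring
  rw [e1, e2] at h
  have h2 : (SS G q p w w' X Y Z nu' ze) ^ a
      ≤ (Rn d Y nu' / Rn d Y nu) ^ (b / d) * (SS G q p w w' X Y Z nu ze) ^ a := by
    have e3 : (Rn d Y nu' / Rn d Y nu) ^ (b / d)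
        = Real.exp (-(b / d) * Real.log (Rn d Y nu) + c * lsz d Z ze)
          * (Real.exp (-(b / d) * Real.log (Rn d Y nu') + c * lsz d Z ze))⁻¹ := by
      rw [Real.rpow_def_of_pos hq, Real.log_div hR'.ne' hR.ne', ← Real.exp_neg, ← Real.exp_add]
      congr 1
      ring
    rw [e3]
    have hpos := Real.exp_pos (-(b / d) * Real.log (Rn d Y nu') + c * lsz d Z ze)
    rw [mul_right_comm, ← div_eq_mul_inv, le_div_iff₀ hpos, mul_comm]
    exact h
  have e4 : (Rn d Y nu' / Rn d Y nu) ^ (b / d) * (SS G q p w w' X Y Z nu ze) ^ a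
      = ((Rn d Y nu' / Rn d Y nu) ^ (b / (a * d)) * SS G q p w w' X Y Z nu ze) ^ a := by
    rw [Real.mul_rpow (Real.rpow_nonneg hq.le _) hS, ← Real.rpow_mul hq.le]
    congr 2
    field_simp
  rw [e4] at h2
  exact (Real.rpow_le_rpow_iff hS' (mul_nonneg (Real.rpow_nonneg hq.le _) hS) ha).1 h2

/-- F1 for the weights: the sum of the weights with the relative change of the excess. -/
theorem ratio_sum {a b c d q p : ℝ} (ha : 0 < a) (hd : 0 < d) {w w' : ℕ} (hw : 1 ≤ w)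
    (hw' : 1 ≤ w') {X Y Z : Finset V}
    {nu ze nu' : V → ℝ} (hnu : IsProb Y nu) (hze : IsProb Z ze) (hnu' : IsProb Y nu')
    (hmax : ∀ nu' ze' : V → ℝ, IsProb Y nu' → IsProb Z ze' →
      PP G a b c d q p w w' X Y Z nu' ze' ≤ PP G a b c d q p w w' X Y Z nu ze) :
    ∑ x ∈ X, wt G q p w w' Y Z nu ze x *
        (max (1 + (dR G Y nu' x - dR G Y nu x) / (dR G Y nu x - q)) 0) ^ w
      ≤ (Rn d Y nu' / Rn d Y nu) ^ (b / (a * d)) * SS G q p w w' X Y Z nu ze := by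
  refine le_trans (le_trans (le_of_eq ?_) (rowE q p w w' V G X X Y Z nu ze nu' ze hw hw'
    (Finset.Subset.refl X))) (ratio ha hd hnu hze hnu' hmax)
  refine Finset.sum_congr rfl fun x _ => ?_
  rw [sub_self (dB G Z ze x), zero_div, add_zero, max_eq_left zero_le_one, one_pow, mul_one]

/-- tilt of a weight by `1 + θ (1_R - d)` for the red neighbourhood `R` of `x₀` -/
noncomputable def til (G : SimpleGraph V) [DecidableRel G.Adj] (Y : Finset V) (nu : V → ℝ)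
    (θ : ℝ) (x₀ y : V) : ℝ :=
  nu y * (1 + θ * (rI G x₀ y - dR G Y nu x₀))

theorem rI_nonneg (x y : V) : 0 ≤ rI G x y := by
  unfold rI
  split_ifs <;> norm_num

theorem rI_le_one (x y : V) : rI G x y ≤ 1 := by
  unfold rI
  split_ifs <;> norm_num

theorem dR_nonneg {Y : Finset V} {nu : V → ℝ} (h : IsProb Y nu) (x : V) : 0 ≤ dR G Y nu x :=
  Finset.sum_nonneg fun y _ => mul_nonneg (h.nonneg y) (rI_nonneg x y)

theorem dR_le_one {Y : Finset V} {nu : V → ℝ} (h : IsProb Y nu) (x : V) : dR G Y nu x ≤ 1 := by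
  rw [← h.sum]
  refine Finset.sum_le_sum fun y _ => ?_
  exact mul_le_of_le_one_right (h.nonneg y) (rI_le_one x y)

theorem til_fac {Y : Finset V} {nu : V → ℝ} (h : IsProb Y nu) {θ : ℝ} (hθ : |θ| ≤ 1)
    (x₀ y : V) : 0 ≤ 1 + θ * (rI G x₀ y - dR G Y nu x₀) ∧
      1 + θ * (rI G x₀ y - dR G Y nu x₀) ≤ 2 := by
  have h1 : |θ * (rI G x₀ y - dR G Y nu x₀)| ≤ 1 := by
    rw [abs_mul]
    refine mul_le_one₀ hθ (abs_nonneg _) ?_
    have h1 := rI_nonneg (G := G) x₀ y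
    have h2 := rI_le_one (G := G) x₀ y
    have h3 := dR_nonneg (G := G) h x₀
    have h4 := dR_le_one (G := G) h x₀
    rw [abs_le]
    constructor <;> linarith
  rw [abs_le] at h1
  constructor <;> linarith

theorem til_prob {Y : Finset V} {nu : V → ℝ} (h : IsProb Y nu) {θ : ℝ} (hθ : |θ| ≤ 1)
    (x₀ : V) : IsProb Y (til G Y nu θ x₀) where
  nonneg y := mul_nonneg (h.nonneg y) (til_fac h hθ x₀ y).1
  supp y hy := by
    unfold til
    rw [h.supp y hy, zero_mul]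
  sum := by
    unfold til
    have e : ∀ y ∈ Y, nu y * (1 + θ * (rI G x₀ y - dR G Y nu x₀))
        = nu y + θ * (nu y * rI G x₀ y) - θ * dR G Y nu x₀ * nu y := fun y _ => by ring
    rw [Finset.sum_congr rfl e, Finset.sum_sub_distrib, Finset.sum_add_distrib,
      ← Finset.mul_sum, ← Finset.mul_sum, h.sum]
    unfold dR
    ring

theorem til_dR {Y : Finset V} {nu : V → ℝ} (θ : ℝ) (x₀ x : V) :
    dR G Y (til G Y nu θ x₀) x - dR G Y nu x = θ * KR G Y nu x x₀ := by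
  unfold KR
  have e : dR G Y (til G Y nu θ x₀) x = dR G Y nu x + θ * ∑ y ∈ Y, nu y * (rI G x y * rI G x₀ y)
      - θ * dR G Y nu x₀ * dR G Y nu x := by
    have e2 : dR G Y (til G Y nu θ x₀) x = ∑ y ∈ Y, (nu y * rI G x y
        + θ * (nu y * (rI G x y * rI G x₀ y)) - θ * dR G Y nu x₀ * (nu y * rI G x y)) := by
      unfold til dR
      refine Finset.sum_congr rfl fun y _ => ?_
      ring
    rw [e2, Finset.sum_sub_distrib, Finset.sum_add_distrib, ← Finset.mul_sum, ← Finset.mul_sum]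
    rfl
  rw [e]
  ring

theorem til_Rn {d : ℝ} (hd : 0 < d) {Y : Finset V} {nu : V → ℝ} (h : IsProb Y nu) {θ : ℝ}
    (hθ : |θ| ≤ 1) (x₀ : V) : Rn d Y (til G Y nu θ x₀) / Rn d Y nu ≤ 2 ^ (1 + d) := by
  rw [div_le_iff₀ (Rn_pos h)]
  unfold Rn
  rw [Finset.mul_sum]
  refine Finset.sum_le_sum fun y _ => ?_
  unfold til
  have h1 := til_fac (G := G) h hθ x₀ y
  rw [Real.mul_rpow (h.nonneg y) h1.1, mul_comm]
  exact mul_le_mul_of_nonneg_right (Real.rpow_le_rpow h1.1 h1.2 (by linarith))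
    (Real.rpow_nonneg (h.nonneg y) _)

/-- F2 (red): exponential moments of the normalised covariances. -/
theorem momR {a b c d q p : ℝ} (ha : 0 < a) (hb : 0 < b) (hd : 0 < d) {w w' : ℕ} (hw : 1 ≤ w)
    (hw' : 1 ≤ w') {X Y Z : Finset V} {nu ze : V → ℝ} (hnu : IsProb Y nu) (hze : IsProb Z ze)
    (hmax : ∀ nu' ze' : V → ℝ, IsProb Y nu' → IsProb Z ze' →
      PP G a b c d q p w w' X Y Z nu' ze' ≤ PP G a b c d q p w w' X Y Z nu ze)
    (x₀ : V) {θ : ℝ} (hθ : |θ| ≤ 1) :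
    ∑ x ∈ X, wt G q p w w' Y Z nu ze x *
        (max (1 + θ * KR G Y nu x x₀ / (dR G Y nu x - q)) 0) ^ w
      ≤ (2 ^ (1 + d)) ^ (b / (a * d)) * SS G q p w w' X Y Z nu ze := by
  have h := ratio_sum ha hd hw hw' hnu hze (til_prob (G := G) hnu hθ x₀) hmax
  have e : ∀ x ∈ X, wt G q p w w' Y Z nu ze x *
        (max (1 + θ * KR G Y nu x x₀ / (dR G Y nu x - q)) 0) ^ w
      = wt G q p w w' Y Z nu ze x * (max (1 + (dR G Y (til G Y nu θ x₀) x - dR G Y nu x)
        / (dR G Y nu x - q)) 0) ^ w := fun x _ => by rw [til_dR]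
  rw [Finset.sum_congr rfl e]
  refine h.trans (mul_le_mul_of_nonneg_right ?_ (SS_nonneg _ _ _ _ _ _ _ _ _))
  exact Real.rpow_le_rpow (div_nonneg (Rn_pos (til_prob (G := G) hnu hθ x₀)).le (Rn_pos hnu).le)
    (til_Rn hd hnu hθ x₀) (by positivity)

/-- F2 (blue): exponential moments of the normalised covariances. -/
theorem momB {a b c d q p : ℝ} (ha : 0 < a) (hc : 0 < c) (hd : 0 < d) {w w' : ℕ} (hw : 1 ≤ w)
    (hw' : 1 ≤ w') {X Y Z : Finset V} {nu ze : V → ℝ} (hnu : IsProb Y nu) (hze : IsProb Z ze)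
    (hmax : ∀ nu' ze' : V → ℝ, IsProb Y nu' → IsProb Z ze' →
      PP G a b c d q p w w' X Y Z nu' ze' ≤ PP G a b c d q p w w' X Y Z nu ze)
    (x₀ : V) {θ : ℝ} (hθ : |θ| ≤ 1) :
    ∑ x ∈ X, wt G q p w w' Y Z nu ze x *
        (max (1 + θ * KB G Z ze x x₀ / (dB G Z ze x - p)) 0) ^ w'
      ≤ (2 ^ (1 + d)) ^ (c / (a * d)) * SS G q p w w' X Y Z nu ze := by
  have h := momR (G := Gᶜ) (a := a) (b := c) (c := b) (d := d) (q := p) (p := q) ha hc hd hw' hw
    (X := X) (Y := Z) (Z := Y) (nu := ze) (ze := nu) hze hnu (fun nu' ze' h1 h2 => by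
      rw [PP_compl, PP_compl]
      exact hmax ze' nu' h2 h1) x₀ hθ
  rw [SS_compl] at h
  refine le_trans (le_of_eq (Finset.sum_congr rfl fun x _ => ?_)) h
  rw [wt_compl, KR_compl, dR_compl]

end

end Pool.Agent.H74.RM
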