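import Pool.Agent.H34.RM.Rows

/-!
Rows D and E of the project RM (MP_28724c_co).
-/

open Finset

namespace Pool.Agent.H74.RM

open Pool.Agent.H92 Pool.Agent.H34.RM

/-- ROW D. -/
theorem rowD : RowD := by
  intro d t p p' hd _ ht ht1 hp hpp' _
  have hp' : 0 < p' := lt_of_lt_of_le hp hpp'
  have hconv := convexOn_rpow (p := 1 + d) (by linarith)
  have h0 : (0 : ℝ) ≤ 1 - t := by linarith
  have h1 : (0 : ℝ) ≤ 1 - t + t / p := add_nonneg h0 (div_nonneg ht hp.le)
  have ha : 0 ≤ p / p' := div_nonneg hp.le hp'.le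
  have hb : 0 ≤ 1 - p / p' := by
    rw [sub_nonneg, div_le_one hp']
    exact hpp'
  have key := hconv.2 (Set.mem_Ici.2 h1) (Set.mem_Ici.2 h0) ha hb (by ring)
  simp only [smul_eq_mul] at key
  have e1 : p / p' * (1 - t + t / p) + (1 - p / p') * (1 - t) = 1 - t + t / p' := by
    field_simp
    ring
  rw [e1] at key
  have key2 := mul_le_mul_of_nonneg_left key hp'.le
  have e2 : p' * (p / p' * (1 - t + t / p) ^ (1 + d) + (1 - p / p') * (1 - t) ^ (1 + d))
      = p * (1 - t + t / p) ^ (1 + d) + (p' - p) * (1 - t) ^ (1 + d) := by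
    field_simp
  rw [e2] at key2
  unfold phi
  linarith

/-- ROW E. -/
theorem rowE : RowE := by
  intro q p w w' V _ G _ X X' Y Z nu ze nu' ze' hw hw' _
  unfold SS
  refine Finset.sum_le_sum fun x _ => ?_
  have key : ∀ (n : ℕ) (u v q : ℝ), 1 ≤ n →
      (max (u - q) 0) ^ n * (max (1 + (v - u) / (u - q)) 0) ^ n ≤ (max (v - q) 0) ^ n := by
    intro n u v q hn
    rcases lt_or_ge 0 (u - q) with h | h
    · have e1 : 1 + (v - u) / (u - q) = (v - q) / (u - q) := by
        field_simp
        ring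
      rw [← mul_pow, e1, max_eq_left h.le, mul_max_of_nonneg _ _ h.le, mul_zero,
        mul_div_cancel₀ _ h.ne']
    · rw [max_eq_right h, zero_pow (by omega), zero_mul]
      positivity
  unfold wt
  have h1 := key w (dR G Y nu x) (dR G Y nu' x) q hw
  have h2 := key w' (dB G Z ze x) (dB G Z ze' x) p hw'
  calc _ = ((max (dR G Y nu x - q) 0) ^ w *
          (max (1 + (dR G Y nu' x - dR G Y nu x) / (dR G Y nu x - q)) 0) ^ w) *
        ((max (dB G Z ze x - p) 0) ^ w' *
          (max (1 + (dB G Z ze' x - dB G Z ze x) / (dB G Z ze x - p)) 0) ^ w') := by ring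
    _ ≤ _ := mul_le_mul h1 h2 (by positivity) (by positivity)

end Pool.Agent.H74.RM
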