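import Pool.Agent.H34.RM.Rows2
import Pool.Agent.H74.RM.F2

/-!
Project RM (MP_28724c_co), row F2: conditionals and tilts.
-/

open Finset

namespace Pool.Agent.H74.RM

open Pool.Agent.H92 Pool.Agent.H34.RM

section

variable {V : Type} [DecidableEq V] {G : SimpleGraph V} [DecidableRel G.Adj]

theorem rI_cases (x y : V) : rI G x y = 0 ∨ rI G x y = 1 := by
  unfold rI
  split_ifs
  · exact Or.inr rfl
  · exact Or.inl rfl

theorem rI_not_mem {x y : V} {Y : Finset V} (hy : y ∈ Y) (h : y ∉ rN G x Y) : rI G x y = 0 := by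
  unfold rI
  rw [if_neg]
  intro h2
  exact h (mem_filter.2 ⟨hy, h2⟩)

theorem mul_Td {d : ℝ} (hd : 0 < d) {Y : Finset V} {nu : V → ℝ} (h : IsProb Y nu) (y : V) :
    nu y * Td d Y nu y = nu y ^ (1 + d) / Ry d Y nu := by
  unfold Td
  rcases (h.nonneg y).eq_or_lt with h0 | h0
  · rw [← h0, zero_mul, Real.zero_rpow (by linarith), zero_div]
  · rw [Real.rpow_add h0, Real.rpow_one]
    ring

theorem Ry_pos {d : ℝ} {Y : Finset V} {nu : V → ℝ} (h : IsProb Y nu) : 0 < Ry d Y nu :=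
  Rn_pos h

theorem sum_Td {d : ℝ} (hd : 0 < d) {Y : Finset V} {nu : V → ℝ} (h : IsProb Y nu) :
    ∑ y ∈ Y, nu y * Td d Y nu y = 1 := by
  rw [Finset.sum_congr rfl fun y _ => mul_Td hd h y, ← Finset.sum_div]
  exact div_self (Ry_pos h).ne'

theorem Td_nonneg {d : ℝ} {Y : Finset V} {nu : V → ℝ} (h : IsProb Y nu) (y : V) :
    0 ≤ Td d Y nu y := div_nonneg (Real.rpow_nonneg (h.nonneg y) _) (Ry_pos h).le

/-- the part of the Renyi sum on the neighbourhood -/
theorem DCR {d : ℝ} (hd : 0 < d) {Y : Finset V} {nu : V → ℝ} (h : IsProb Y nu) (x : V) :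
    dR G Y nu x + CR G d Y nu x = (∑ y ∈ Y, nu y ^ (1 + d) * rI G x y) / Ry d Y nu := by
  unfold CR
  rw [add_sub_cancel, Finset.sum_div]
  refine Finset.sum_congr rfl fun y _ => ?_
  rw [mul_left_comm, mul_Td hd h]
  ring

/-- a function with two values -/
theorem Ry_two {d : ℝ} {Y : Finset V} {nu : V → ℝ} (h : IsProb Y nu) (x : V)
    {α β : ℝ} (hα : 0 ≤ α) (hβ : 0 ≤ β) :
    ∑ y ∈ Y, (nu y * (if rI G x y = 1 then α else β)) ^ (1 + d)
      = α ^ (1 + d) * ∑ y ∈ Y, nu y ^ (1 + d) * rI G x y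
        + β ^ (1 + d) * (Ry d Y nu - ∑ y ∈ Y, nu y ^ (1 + d) * rI G x y) := by
  unfold Ry
  rw [← Finset.sum_sub_distrib, Finset.mul_sum, Finset.mul_sum, ← Finset.sum_add_distrib]
  refine Finset.sum_congr rfl fun y _ => ?_
  rcases rI_cases (G := G) x y with h0 | h0
  · rw [h0, if_neg (by norm_num), Real.mul_rpow (h.nonneg y) hβ]
    ring
  · rw [h0, if_pos rfl, Real.mul_rpow (h.nonneg y) hα]
    ring

theorem redF2 (d t : ℝ) (Y : Finset V) (nu : V → ℝ) (x : V) (hd : 0 < d) (ht : 0 ≤ t)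
    (ht1 : t ≤ 1) (h : IsProb Y nu) (hD : 0 < dR G Y nu x) :
      IsProb Y (cdR G Y nu x) ∧ IsProb (rN G x Y) (cdR G Y nu x) ∧
      Ry d (rN G x Y) (cdR G Y nu x) = Ry d Y (cdR G Y nu x) ∧
      Ry d Y (cdR G Y nu x) / Ry d Y nu = (dR G Y nu x + CR G d Y nu x) / dR G Y nu x ^ (1 + d) ∧
      0 < dR G Y nu x + CR G d Y nu x ∧
      dR G Y nu x + CR G d Y nu x ≤ 1 ∧
      (∀ x', dR G (rN G x Y) (cdR G Y nu x) x' = dR G Y (cdR G Y nu x) x' ∧
        dR G Y (cdR G Y nu x) x' - dR G Y nu x' = KR G Y nu x x' / dR G Y nu x) ∧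
      IsProb Y (tiltR G Y nu t x) ∧
      Ry d Y (tiltR G Y nu t x) / Ry d Y nu = phi d t (dR G Y nu x)
        + CR G d Y nu x * ((1 - t + t / dR G Y nu x) ^ (1 + d) - (1 - t) ^ (1 + d)) ∧
      (∀ x', dR G Y (tiltR G Y nu t x) x' - dR G Y nu x' = t * KR G Y nu x x' / dR G Y nu x) := by
  have hR := Ry_pos (d := d) h
  have hcd0 : ∀ y, 0 ≤ cdR G Y nu x y := fun y =>
    div_nonneg (mul_nonneg (h.nonneg y) (rI_nonneg x y)) hD.le
  have hcdout : ∀ y, y ∉ rN G x Y → cdR G Y nu x y = 0 := by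
    intro y hy
    unfold cdR
    by_cases hyY : y ∈ Y
    · rw [rI_not_mem hyY hy, mul_zero, zero_div]
    · rw [h.supp y hyY, zero_mul, zero_div]
  have hsub : rN G x Y ⊆ Y := filter_subset _ _
  have hcds : ∑ y ∈ Y, cdR G Y nu x y = 1 := by
    unfold cdR
    rw [← Finset.sum_div]
    exact div_self hD.ne'
  have hcdY : IsProb Y (cdR G Y nu x) :=
    ⟨hcd0, fun y hy => hcdout y fun h2 => hy (hsub h2), hcds⟩
  have hsumN : ∀ φ : V → ℝ, (∀ y, cdR G Y nu x y = 0 → φ y = 0) →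
      ∑ y ∈ rN G x Y, φ y = ∑ y ∈ Y, φ y := by
    intro φ hφ
    exact Finset.sum_subset hsub fun y _ hy => hφ y (hcdout y hy)
  have hcdN : IsProb (rN G x Y) (cdR G Y nu x) :=
    ⟨hcd0, hcdout, by rw [hsumN _ fun y hy => hy]; exact hcds⟩
  have h1d : (1 + d) ≠ 0 := by linarith
  have hpart : ∑ y ∈ Y, nu y ^ (1 + d) * rI G x y
      = (dR G Y nu x + CR G d Y nu x) * Ry d Y nu := by
    rw [DCR hd h, div_mul_cancel₀ _ hR.ne']
  have hpos : 0 < dR G Y nu x + CR G d Y nu x := by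
    rw [DCR hd h]
    refine div_pos ?_ hR
    have h1 : ∃ y ∈ Y, nu y * rI G x y ≠ 0 := by
      by_contra hn
      push Not at hn
      have h2 : dR G Y nu x = 0 := Finset.sum_eq_zero hn
      exact hD.ne' h2
    obtain ⟨y, hy, hy0⟩ := h1
    have h2 : nu y ≠ 0 := fun h3 => hy0 (by rw [h3, zero_mul])
    have h3 : rI G x y = 1 := by
      rcases rI_cases (G := G) x y with h4 | h4
      · exact absurd (by rw [h4, mul_zero]) hy0
      · exact h4
    refine Finset.sum_pos' (fun z _ => mul_nonneg (Real.rpow_nonneg (h.nonneg z) _)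
      (rI_nonneg x z)) ⟨y, hy, ?_⟩
    rw [h3, mul_one]
    exact Real.rpow_pos_of_pos (lt_of_le_of_ne (h.nonneg y) (Ne.symm h2)) _
  have hle : dR G Y nu x + CR G d Y nu x ≤ 1 := by
    rw [DCR hd h, div_le_one hR]
    exact Finset.sum_le_sum fun y _ =>
      mul_le_of_le_one_right (Real.rpow_nonneg (h.nonneg y) _) (rI_le_one x y)
  have hf0 : ∀ y, 0 ≤ 1 - t + t * rI G x y / dR G Y nu x := fun y =>
    add_nonneg (by linarith) (div_nonneg (mul_nonneg ht (rI_nonneg x y)) hD.le)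
  refine ⟨hcdY, hcdN, hsumN _ fun y hy => by rw [hy, Real.zero_rpow h1d], ?_, hpos, hle,
    fun x' => ⟨hsumN _ fun y hy => by rw [hy, zero_mul], ?_⟩, ⟨fun y => ?_, fun y hy => ?_, ?_⟩,
    ?_, fun x' => ?_⟩
  · have e1 : Ry d Y (cdR G Y nu x) = ∑ y ∈ Y, (nu y *
        (if rI G x y = 1 then 1 / dR G Y nu x else 0)) ^ (1 + d) := by
      unfold Ry cdR
      refine Finset.sum_congr rfl fun y _ => ?_
      rcases rI_cases (G := G) x y with h0 | h0
      · rw [h0, if_neg (by norm_num), mul_zero, zero_div]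
      · rw [h0, if_pos rfl, mul_one, mul_one_div]
    rw [e1, Ry_two h x (by positivity) le_rfl, Real.zero_rpow h1d, zero_mul, add_zero, hpart,
      Real.div_rpow zero_le_one hD.le, Real.one_rpow]
    field_simp
  · unfold KR cdR dR
    rw [sub_div, mul_div_cancel_left₀]
    · congr 1
      rw [Finset.sum_div]
      exact Finset.sum_congr rfl fun y _ => by ring
    · exact hD.ne'
  · unfold tiltR
    exact mul_nonneg (h.nonneg y) (hf0 y)
  · unfold tiltR
    rw [h.supp y hy, zero_mul]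
  · have e1 : ∀ y ∈ Y, tiltR G Y nu t x y = (1 - t) * nu y + t / dR G Y nu x *
        (nu y * rI G x y) := by
      intro y _
      unfold tiltR
      ring
    rw [Finset.sum_congr rfl e1, Finset.sum_add_distrib, ← Finset.mul_sum, ← Finset.mul_sum,
      h.sum]
    have e2 : ∑ y ∈ Y, nu y * rI G x y = dR G Y nu x := rfl
    rw [e2, div_mul_cancel₀ _ hD.ne']
    ring
  · have e1 : Ry d Y (tiltR G Y nu t x) = ∑ y ∈ Y, (nu y *
        (if rI G x y = 1 then 1 - t + t / dR G Y nu x else 1 - t)) ^ (1 + d) := by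
      unfold Ry tiltR
      refine Finset.sum_congr rfl fun y _ => ?_
      rcases rI_cases (G := G) x y with h0 | h0
      · rw [h0, if_neg (by norm_num), mul_zero, zero_div, add_zero]
      · rw [h0, if_pos rfl, mul_one]
    have h0 : 0 ≤ 1 - t + t / dR G Y nu x := add_nonneg (by linarith) (div_nonneg ht hD.le)
    rw [e1, Ry_two h x h0 (by linarith), hpart, div_eq_iff hR.ne']
    unfold phi
    ring
  · have e1 : dR G Y (tiltR G Y nu t x) x' = (1 - t) * dR G Y nu x' + t / dR G Y nu x *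
        ∑ y ∈ Y, nu y * (rI G x y * rI G x' y) := by
      have e2 : dR G Y (tiltR G Y nu t x) x' = ∑ y ∈ Y, ((1 - t) * (nu y * rI G x' y)
          + t / dR G Y nu x * (nu y * (rI G x y * rI G x' y))) := by
        unfold tiltR
        refine Finset.sum_congr rfl fun y _ => ?_
        ring
      rw [e2, Finset.sum_add_distrib, ← Finset.mul_sum, ← Finset.mul_sum]
      rfl
    rw [e1]
    unfold KR
    field_simp
    ring

theorem cdR_compl (Y : Finset V) (nu : V → ℝ) (x : V) : cdR Gᶜ Y nu x = cdB G Y nu x := by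
  funext y
  unfold cdR cdB
  rw [rI_compl, dR_compl]

theorem cdB_compl (Y : Finset V) (nu : V → ℝ) (x : V) : cdB Gᶜ Y nu x = cdR G Y nu x := by
  funext y
  unfold cdR cdB
  rw [bI_compl, dB_compl]

theorem tiltR_compl (Y : Finset V) (nu : V → ℝ) (t : ℝ) (x : V) :
    tiltR Gᶜ Y nu t x = tiltB G Y nu t x := by
  funext y
  unfold tiltR tiltB
  rw [rI_compl, dR_compl]

theorem tiltB_compl (Y : Finset V) (nu : V → ℝ) (t : ℝ) (x : V) :
    tiltB Gᶜ Y nu t x = tiltR G Y nu t x := by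
  funext y
  unfold tiltR tiltB
  rw [bI_compl, dB_compl]

theorem CR_compl (d : ℝ) (Y : Finset V) (nu : V → ℝ) (x : V) :
    CR Gᶜ d Y nu x = CB G d Y nu x := by
  unfold CR CB
  rw [dR_compl]
  congr 1
  exact Finset.sum_congr rfl fun y _ => by rw [rI_compl]

theorem CB_compl (d : ℝ) (Y : Finset V) (nu : V → ℝ) (x : V) :
    CB Gᶜ d Y nu x = CR G d Y nu x := by
  unfold CR CB
  rw [dB_compl]
  congr 1
  exact Finset.sum_congr rfl fun y _ => by rw [bI_compl]

end

/-- ROW F2. -/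
theorem rowF2 : RowF2 := by
  intro V _ G _ d t Y Z nu ze x hd _ ht ht1 hnu hze
  refine ⟨redF2 d t Y nu x hd ht ht1 hnu, fun hD => ?_⟩
  have h := redF2 (G := Gᶜ) d t Z ze x hd ht ht1 hze (by rw [dR_compl]; exact hD)
  simp only [dR_compl, KR_compl, cdR_compl, CR_compl, tiltR_compl, rN_compl] at h
  exact h

end Pool.Agent.H74.RM
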