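import Pool.Agent.H74.RM.F2

/-!
Project RM (MP_28724c_co), F3: the covariance of the neighbourhoods with the Renyi density is
small on average.
-/

open Finset

namespace Pool.Agent.H74.RM

open Pool.Agent.H92 Pool.Agent.H34.RM

section

variable {V : Type} [DecidableEq V] {G : SimpleGraph V} [DecidableRel G.Adj]

/-- the weight vanishes where the excess is not positive -/
theorem wt_pos_ex {q p : ℝ} {w w' : ℕ} (hw : 1 ≤ w) {Y Z : Finset V} {nu ze : V → ℝ} {x : V}
    (h : 0 < wt G q p w w' Y Z nu ze x) : 0 < dR G Y nu x - q := by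
  by_contra hn
  have h1 : wt G q p w w' Y Z nu ze x = 0 := by
    unfold wt
    rw [max_eq_right (not_lt.1 hn), zero_pow (by omega), zero_mul]
  rw [h1] at h
  exact lt_irrefl _ h

/-- the weighted degree of `y` -/
noncomputable def gg (G : SimpleGraph V) [DecidableRel G.Adj] (q p : ℝ) (w w' : ℕ)
    (X Y Z : Finset V) (nu ze : V → ℝ) (y : V) : ℝ :=
  ∑ x ∈ X, wt G q p w w' Y Z nu ze x / SS G q p w w' X Y Z nu ze *
    (rI G x y / (dR G Y nu x - q))

theorem gg_nonneg {q p : ℝ} {w w' : ℕ} (hw : 1 ≤ w) {X Y Z : Finset V} {nu ze : V → ℝ} (y : V) :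
    0 ≤ gg G q p w w' X Y Z nu ze y := by
  refine Finset.sum_nonneg fun x _ => ?_
  rcases (wt_nonneg (G := G) q p w w' Y Z nu ze x).eq_or_lt with h | h
  · rw [← h, zero_div, zero_mul]
  · exact mul_nonneg (div_nonneg h.le (SS_nonneg _ _ _ _ _ _ _ _ _))
      (div_nonneg (rI_nonneg x y) (wt_pos_ex hw h).le)

theorem gg_le {q p : ℝ} {w w' : ℕ} (hw : 1 ≤ w) {X Y Z : Finset V} {nu ze : V → ℝ} {em K : ℝ}
    (hem : 0 < em) (hS : 0 < SS G q p w w' X Y Z nu ze)
    (h : ∑ x ∈ X, wt G q p w w' Y Z nu ze x * (em / (dR G Y nu x - q))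
      ≤ K * SS G q p w w' X Y Z nu ze) (y : V) :
    gg G q p w w' X Y Z nu ze y ≤ K / em := by
  have h1 : gg G q p w w' X Y Z nu ze y
      ≤ (∑ x ∈ X, wt G q p w w' Y Z nu ze x * (em / (dR G Y nu x - q))) /
        (em * SS G q p w w' X Y Z nu ze) := by
    unfold gg
    rw [Finset.sum_div]
    refine Finset.sum_le_sum fun x _ => ?_
    rcases (wt_nonneg (G := G) q p w w' Y Z nu ze x).eq_or_lt with h2 | h2
    · rw [← h2]
      simp
    · have h3 := wt_pos_ex hw h2
      have e : wt G q p w w' Y Z nu ze x * (em / (dR G Y nu x - q)) /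
          (em * SS G q p w w' X Y Z nu ze)
          = wt G q p w w' Y Z nu ze x / SS G q p w w' X Y Z nu ze *
            (1 / (dR G Y nu x - q)) := by
        field_simp
      rw [e]
      exact mul_le_mul_of_nonneg_left (div_le_div_of_nonneg_right (rI_le_one x y) h3.le)
        (div_nonneg h2.le hS.le)
  refine h1.trans ?_
  rw [div_le_div_iff₀ (mul_pos hem hS) hem]
  calc _ ≤ K * SS G q p w w' X Y Z nu ze * em := mul_le_mul_of_nonneg_right h hem.le
    _ = _ := by ring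

/-- the tilt by a density -/
theorem fprob {Y : Finset V} {nu f : V → ℝ} (h : IsProb Y nu) (hf : ∀ y ∈ Y, 0 ≤ f y)
    (hf1 : ∑ y ∈ Y, nu y * f y = 1) : IsProb Y (fun y => nu y * f y) where
  nonneg y := by
    by_cases hy : y ∈ Y
    · exact mul_nonneg (h.nonneg y) (hf y hy)
    · rw [h.supp y hy, zero_mul]
  supp y hy := by rw [h.supp y hy, zero_mul]
  sum := hf1

/-- the hypothesis of row C -/
theorem rowC_hyp {a b c d q p : ℝ} (ha : 0 < a) (hd : 0 < d) {w w' : ℕ} (hw : 1 ≤ w)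
    (hw' : 1 ≤ w') {X Y Z : Finset V} {nu ze : V → ℝ} (hnu : IsProb Y nu) (hze : IsProb Z ze)
    (hS : 0 < SS G q p w w' X Y Z nu ze)
    (hmax : ∀ nu' ze' : V → ℝ, IsProb Y nu' → IsProb Z ze' →
      PP G a b c d q p w w' X Y Z nu' ze' ≤ PP G a b c d q p w w' X Y Z nu ze)
    (f : V → ℝ) (hf : ∀ y ∈ Y, 0 ≤ f y) (hf1 : ∑ y ∈ Y, nu y * f y = 1)
    (hpos : 0 < 1 + ∑ y ∈ Y, nu y * ((f y - 1) * gg G q p w w' X Y Z nu ze y)) :
    a * w * Real.log (1 + ∑ y ∈ Y, nu y * ((f y - 1) * gg G q p w w' X Y Z nu ze y))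
      ≤ (b / d) * Real.log ((∑ y ∈ Y, (nu y * f y) ^ (1 + d)) / ∑ y ∈ Y, nu y ^ (1 + d)) := by
  have hP := fprob hnu hf hf1
  have h1 := ratio_sum ha hd hw hw' hnu hze hP hmax
  set S := SS G q p w w' X Y Z nu ze with hSdef
  set m : V → ℝ := fun x => 1 + (dR G Y (fun y => nu y * f y) x - dR G Y nu x) /
    (dR G Y nu x - q) with hm
  -- the mean
  have hmean : ∑ x ∈ X, wt G q p w w' Y Z nu ze x / S * m x
      = 1 + ∑ y ∈ Y, nu y * ((f y - 1) * gg G q p w w' X Y Z nu ze y) := by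
    have e1 : ∑ x ∈ X, wt G q p w w' Y Z nu ze x / S = 1 := by
      rw [← Finset.sum_div]
      exact div_self hS.ne'
    have e2 : ∑ y ∈ Y, nu y * ((f y - 1) * gg G q p w w' X Y Z nu ze y)
        = ∑ x ∈ X, wt G q p w w' Y Z nu ze x / S *
          ((dR G Y (fun y => nu y * f y) x - dR G Y nu x) / (dR G Y nu x - q)) := by
      have e3 : ∀ x, dR G Y (fun y => nu y * f y) x - dR G Y nu x
          = ∑ y ∈ Y, nu y * ((f y - 1) * rI G x y) := by
        intro x
        unfold dR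
        rw [← Finset.sum_sub_distrib]
        exact Finset.sum_congr rfl fun y _ => by ring
      simp_rw [e3]
      unfold gg
      simp_rw [Finset.mul_sum, Finset.sum_div, Finset.mul_sum]
      rw [Finset.sum_comm]
      refine Finset.sum_congr rfl fun x _ => Finset.sum_congr rfl fun y _ => ?_
      rw [← hSdef]
      ring
    rw [e2]
    simp_rw [hm, mul_add, mul_one]
    rw [Finset.sum_add_distrib, e1]
  -- Jensen
  have hJ : (1 + ∑ y ∈ Y, nu y * ((f y - 1) * gg G q p w w' X Y Z nu ze y)) ^ w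
      ≤ ∑ x ∈ X, wt G q p w w' Y Z nu ze x / S * (max (m x) 0) ^ w := by
    have h2 : 1 + ∑ y ∈ Y, nu y * ((f y - 1) * gg G q p w w' X Y Z nu ze y)
        ≤ ∑ x ∈ X, wt G q p w w' Y Z nu ze x / S * max (m x) 0 := by
      rw [← hmean]
      exact Finset.sum_le_sum fun x _ => mul_le_mul_of_nonneg_left (le_max_left _ _)
        (div_nonneg (wt_nonneg _ _ _ _ _ _ _ _ _) hS.le)
    refine (pow_le_pow_left₀ hpos.le h2 w).trans ?_
    refine Real.pow_arith_mean_le_arith_mean_pow X _ _ (fun x _ =>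
      div_nonneg (wt_nonneg _ _ _ _ _ _ _ _ _) hS.le) ?_ (fun x _ => le_max_right _ _) w
    rw [← Finset.sum_div]
    exact div_self hS.ne'
  have h3 : ∑ x ∈ X, wt G q p w w' Y Z nu ze x / S * (max (m x) 0) ^ w
      ≤ (Rn d Y (fun y => nu y * f y) / Rn d Y nu) ^ (b / (a * d)) := by
    have e4 : ∑ x ∈ X, wt G q p w w' Y Z nu ze x / S * (max (m x) 0) ^ w
        = (∑ x ∈ X, wt G q p w w' Y Z nu ze x * (max (m x) 0) ^ w) / S := by
      rw [Finset.sum_div]
      exact Finset.sum_congr rfl fun x _ => by ring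
    rw [e4, div_le_iff₀ hS]
    exact h1
  have h4 := hJ.trans h3
  have hR : 0 < Rn d Y (fun y => nu y * f y) / Rn d Y nu := div_pos (Rn_pos hP) (Rn_pos hnu)
  have h5 := Real.log_le_log (pow_pos hpos w) h4
  rw [Real.log_pow, Real.log_rpow hR] at h5
  have h6 := mul_le_mul_of_nonneg_left h5 ha.le
  have e5 : a * (b / (a * d) * Real.log (Rn d Y (fun y => nu y * f y) / Rn d Y nu))
      = b / d * Real.log (Rn d Y (fun y => nu y * f y) / Rn d Y nu) := by
    field_simp
  rw [e5, ← mul_assoc] at h6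
  exact h6

end

end Pool.Agent.H74.RM
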