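import Pool.Agent.H74.RM.F3

/-!
Project RM (MP_28724c_co), F3, second part: the average covariance and the conclusion.
-/

open Finset Filter Topology

namespace Pool.Agent.H74.RM

open Pool.Agent.H92 Pool.Agent.H34.RM

section

variable {V : Type} [DecidableEq V] {G : SimpleGraph V} [DecidableRel G.Adj]

theorem KR_symm (Y : Finset V) (nu : V → ℝ) (x x' : V) : KR G Y nu x x' = KR G Y nu x' x := by
  unfold KR
  congr 1
  · exact Finset.sum_congr rfl fun y _ => by rw [mul_comm (rI G x y)]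
  · rw [mul_comm]

/-- elementary: the square is dominated by the two powers -/
theorem sq_le_pow {w : ℕ} (hw : 2 ≤ w) (t : ℝ) :
    (w : ℝ) ^ 2 / 4 * t ^ 2 ≤ (max (1 + t) 0) ^ w + (max (1 - t) 0) ^ w := by
  have key : ∀ s : ℝ, 0 ≤ s → (w : ℝ) ^ 2 / 4 * s ^ 2 ≤ (1 + s) ^ w := by
    intro s hs
    have h1 := one_add_mul_le_pow (a := s) (by linarith) w
    obtain ⟨m, hm⟩ : ∃ m, w = m + m ∨ w = m + m + 1 := ⟨w / 2, by omega⟩
    have hwr : (2 : ℝ) ≤ w := by exact_mod_cast hw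
    -- use a half power twice
    have h2 : 1 + ((w : ℝ) / 2) * s ≤ (1 + s) ^ ((w : ℝ) / 2) :=
      one_add_mul_self_le_rpow_one_add (by linarith) (by linarith)
    have h3 : 0 ≤ 1 + ((w : ℝ) / 2) * s := by positivity
    have h4 := mul_self_le_mul_self h3 h2
    rw [← Real.rpow_add (by linarith), add_halves, Real.rpow_natCast] at h4
    refine le_trans ?_ h4
    have h5 : 0 ≤ (w : ℝ) * s := by positivity
    nlinarith
  rcases le_total 0 t with h | h
  · have h1 := key t h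
    rw [max_eq_left (by linarith : (0 : ℝ) ≤ 1 + t)]
    have h2 : 0 ≤ (max (1 - t) 0) ^ w := by positivity
    linarith
  · have h1 := key (-t) (by linarith)
    rw [neg_sq, ← sub_eq_add_neg] at h1
    rw [max_eq_left (by linarith : (0 : ℝ) ≤ 1 - t)]
    have h2 : 0 ≤ (max (1 + t) 0) ^ w := by positivity
    linarith

/-- second moment of the normalised covariances -/
theorem sqR {a b c d q p : ℝ} (ha : 0 < a) (hb : 0 < b) (hd : 0 < d) {w w' : ℕ} (hw : 2 ≤ w)
    (hw' : 1 ≤ w') {X Y Z : Finset V} {nu ze : V → ℝ} (hnu : IsProb Y nu) (hze : IsProb Z ze)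
    (hmax : ∀ nu' ze' : V → ℝ, IsProb Y nu' → IsProb Z ze' →
      PP G a b c d q p w w' X Y Z nu' ze' ≤ PP G a b c d q p w w' X Y Z nu ze)
    (x₀ : V) :
    ∑ x ∈ X, wt G q p w w' Y Z nu ze x * (KR G Y nu x x₀ / (dR G Y nu x - q)) ^ 2
      ≤ 8 / (w : ℝ) ^ 2 * (2 ^ (1 + d)) ^ (b / (a * d)) * SS G q p w w' X Y Z nu ze := by
  have hwr : (2 : ℝ) ≤ w := by exact_mod_cast hw
  have hw1 : 1 ≤ w := by omega
  have h1 := momR ha hb hd hw1 hw' hnu hze hmax x₀ (θ := 1) (by simp)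
  have h2 := momR ha hb hd hw1 hw' hnu hze hmax x₀ (θ := -1) (by simp)
  have h3 : (w : ℝ) ^ 2 / 4 * ∑ x ∈ X, wt G q p w w' Y Z nu ze x *
      (KR G Y nu x x₀ / (dR G Y nu x - q)) ^ 2
      ≤ 2 * ((2 ^ (1 + d)) ^ (b / (a * d)) * SS G q p w w' X Y Z nu ze) := by
    refine le_trans ?_ (le_trans (add_le_add h1 h2) (le_of_eq (by ring)))
    rw [← Finset.sum_add_distrib, Finset.mul_sum]
    refine Finset.sum_le_sum fun x _ => ?_
    have h4 := sq_le_pow hw (KR G Y nu x x₀ / (dR G Y nu x - q))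
    have h5 := mul_le_mul_of_nonneg_left h4 (wt_nonneg (G := G) q p w w' Y Z nu ze x)
    have e1 : 1 + 1 * KR G Y nu x x₀ / (dR G Y nu x - q)
        = 1 + KR G Y nu x x₀ / (dR G Y nu x - q) := by rw [one_mul]
    have e2 : 1 + -1 * KR G Y nu x x₀ / (dR G Y nu x - q)
        = 1 - KR G Y nu x x₀ / (dR G Y nu x - q) := by ring
    rw [e1, e2]
    linarith
  have hw0 : (0 : ℝ) < (w : ℝ) ^ 2 / 4 := by positivity
  have h6 : ∑ x ∈ X, wt G q p w w' Y Z nu ze x * (KR G Y nu x x₀ / (dR G Y nu x - q)) ^ 2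
      ≤ (2 * ((2 ^ (1 + d)) ^ (b / (a * d)) * SS G q p w w' X Y Z nu ze)) / ((w : ℝ) ^ 2 / 4) := by
    rw [le_div_iff₀ hw0, mul_comm]
    exact h3
  refine h6.trans (le_of_eq ?_)
  field_simp
  ring

/-- the average absolute covariance -/
theorem absR {a b c d q p K : ℝ} (ha : 0 < a) (hb : 0 < b) (hd : 0 < d) {w w' : ℕ} (hw : 2 ≤ w)
    (hw' : 1 ≤ w') {X Y Z : Finset V} {nu ze : V → ℝ} (hnu : IsProb Y nu) (hze : IsProb Z ze)
    (hmax : ∀ nu' ze' : V → ℝ, IsProb Y nu' → IsProb Z ze' →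
      PP G a b c d q p w w' X Y Z nu' ze' ≤ PP G a b c d q p w w' X Y Z nu ze)
    {em : ℝ} (hem : 0 < em) (hK : 0 ≤ K)
    (h2 : ∑ x ∈ X, wt G q p w w' Y Z nu ze x * ((dR G Y nu x - q) / em) ^ 2
      ≤ K * SS G q p w w' X Y Z nu ze) (x₀ : V) :
    ∑ x ∈ X, wt G q p w w' Y Z nu ze x * |KR G Y nu x x₀|
      ≤ em / w * Real.sqrt (8 * (2 ^ (1 + d)) ^ (b / (a * d)) * K) *
        SS G q p w w' X Y Z nu ze := by
  have hwr : (2 : ℝ) ≤ w := by exact_mod_cast hw
  have hw0 : (0 : ℝ) < w := by linarith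
  have hw1 : 1 ≤ w := by omega
  have hS := SS_nonneg (G := G) q p w w' X Y Z nu ze
  set C : ℝ := (2 ^ (1 + d)) ^ (b / (a * d)) with hC
  have hC0 : 0 ≤ C := by rw [hC]; positivity
  have hs := sqR ha hb hd hw hw' hnu hze hmax x₀
  rw [← hC] at hs
  -- Cauchy-Schwarz
  have hcs := Finset.sum_mul_sq_le_sq_mul_sq X
    (fun x => Real.sqrt (wt G q p w w' Y Z nu ze x) * ((dR G Y nu x - q) / em))
    (fun x => Real.sqrt (wt G q p w w' Y Z nu ze x) *
      (|KR G Y nu x x₀| / (dR G Y nu x - q)))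
  have e1 : ∑ x ∈ X, Real.sqrt (wt G q p w w' Y Z nu ze x) * ((dR G Y nu x - q) / em) *
      (Real.sqrt (wt G q p w w' Y Z nu ze x) * (|KR G Y nu x x₀| / (dR G Y nu x - q)))
      = (∑ x ∈ X, wt G q p w w' Y Z nu ze x * |KR G Y nu x x₀|) / em := by
    rw [Finset.sum_div]
    refine Finset.sum_congr rfl fun x _ => ?_
    rcases (wt_nonneg (G := G) q p w w' Y Z nu ze x).eq_or_lt with h | h
    · rw [← h]
      simp
    · have h3 := (wt_pos_ex hw1 h).ne'
      have h4 := Real.mul_self_sqrt h.le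
      calc _ = (Real.sqrt (wt G q p w w' Y Z nu ze x) * Real.sqrt (wt G q p w w' Y Z nu ze x)) *
            |KR G Y nu x x₀| / em := by
              field_simp
        _ = _ := by rw [h4]
  have e2 : ∑ x ∈ X, (Real.sqrt (wt G q p w w' Y Z nu ze x) * ((dR G Y nu x - q) / em)) ^ 2
      = ∑ x ∈ X, wt G q p w w' Y Z nu ze x * ((dR G Y nu x - q) / em) ^ 2 := by
    refine Finset.sum_congr rfl fun x _ => ?_
    rw [mul_pow, Real.sq_sqrt (wt_nonneg _ _ _ _ _ _ _ _ _)]
  have e3 : ∑ x ∈ X, (Real.sqrt (wt G q p w w' Y Z nu ze x) *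
      (|KR G Y nu x x₀| / (dR G Y nu x - q))) ^ 2
      = ∑ x ∈ X, wt G q p w w' Y Z nu ze x * (KR G Y nu x x₀ / (dR G Y nu x - q)) ^ 2 := by
    refine Finset.sum_congr rfl fun x _ => ?_
    rw [mul_pow, Real.sq_sqrt (wt_nonneg _ _ _ _ _ _ _ _ _), div_pow, div_pow, sq_abs]
  rw [e1, e2, e3] at hcs
  have h4 : ((∑ x ∈ X, wt G q p w w' Y Z nu ze x * |KR G Y nu x x₀|) / em) ^ 2
      ≤ (K * SS G q p w w' X Y Z nu ze) *
        (8 / (w : ℝ) ^ 2 * C * SS G q p w w' X Y Z nu ze) :=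
    hcs.trans (mul_le_mul h2 hs (Finset.sum_nonneg fun x _ =>
      mul_nonneg (wt_nonneg _ _ _ _ _ _ _ _ _) (sq_nonneg _)) (mul_nonneg hK hS))
  have e4 : (K * SS G q p w w' X Y Z nu ze) *
        (8 / (w : ℝ) ^ 2 * C * SS G q p w w' X Y Z nu ze)
      = (1 / w * Real.sqrt (8 * C * K) * SS G q p w w' X Y Z nu ze) ^ 2 := by
    rw [mul_pow, mul_pow, Real.sq_sqrt (by positivity)]
    field_simp
  rw [e4] at h4
  have h5 := abs_le_of_sq_le_sq h4 (by positivity)
  have h6 := (le_abs_self _).trans h5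
  rw [div_le_iff₀ hem] at h6
  refine h6.trans (le_of_eq ?_)
  ring

end

/-- the analytic estimate -/
theorem f3_small (A : ℝ) : ∀ ε : ℝ, 0 < ε → ∃ w0 : ℕ, ∀ w : ℕ, w0 ≤ w → ∀ em : ℝ, 0 < em →
    em ≤ 1 → em / w * A * (1 + Real.log (w * (2 / em))) ^ 2 ≤ ε := by
  intro ε hε
  have hlim : Tendsto (fun w : ℕ => |A| * (2 * (1 + Real.log (2 * w)) ^ 2 / w + 2 / w)) atTop
      (𝓝 0) := by
    have h1 : Tendsto (fun x : ℝ => (1 + Real.log (2 * x)) ^ 2 / x) atTop (𝓝 0) := by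
      have h2 : Tendsto (fun x : ℝ => Real.log x ^ 2 / (x / 2)) atTop (𝓝 0) := by
        have h3 := Real.isLittleO_pow_log_id_atTop (n := 2)
        have h4 := h3.tendsto_div_nhds_zero
        have h5 := h4.mul_const (2 : ℝ)
        rw [zero_mul] at h5
        refine h5.congr fun x => ?_
        simp only [id]
        ring
      have h6 : Tendsto (fun x : ℝ => Real.exp 1 * (2 * x)) atTop atTop :=
        (tendsto_id.const_mul_atTop (by norm_num : (0 : ℝ) < 2)).const_mul_atTop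
          (Real.exp_pos 1)
      have h7 := h2.comp h6
      have h8 : Tendsto (fun x : ℝ => Real.exp 1 * (Real.log (Real.exp 1 * (2 * x)) ^ 2 /
          (Real.exp 1 * (2 * x) / 2))) atTop (𝓝 0) := by
        have h9 := h7.const_mul (Real.exp 1)
        rw [mul_zero] at h9
        exact h9
      refine h8.congr' ?_
      filter_upwards [eventually_gt_atTop (0 : ℝ)] with x hx
      rw [Real.log_mul (Real.exp_pos 1).ne' (by positivity), Real.log_exp]
      have := Real.exp_pos 1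
      field_simp
    have h10 := h1.comp tendsto_natCast_atTop_atTop
    have h11 : Tendsto (fun w : ℕ => (2 : ℝ) / w) atTop (𝓝 0) :=
      tendsto_natCast_atTop_atTop.const_div_atTop 2
    have h12 := ((h10.const_mul 2).add h11).const_mul |A|
    rw [mul_zero, add_zero, mul_zero] at h12
    refine h12.congr fun w => ?_
    simp only [Function.comp]
    ring
  have hev := hlim.eventually (ge_mem_nhds hε)
  obtain ⟨w0, hw0⟩ := eventually_atTop.1 (hev.and (eventually_ge_atTop 1))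
  refine ⟨w0, fun w hw em hem hem1 => ?_⟩
  obtain ⟨h1, h2⟩ := hw0 w hw
  refine le_trans ?_ h1
  have hwr : (1 : ℝ) ≤ w := by exact_mod_cast h2
  have hw0' : (0 : ℝ) < w := by linarith
  have hlog : Real.log (w * (2 / em)) = Real.log (2 * w) + Real.log (1 / em) := by
    rw [← Real.log_mul (by positivity) (by positivity)]
    congr 1
    field_simp
  have hl0 : 0 ≤ Real.log (1 / em) := Real.log_nonneg (by rw [le_div_iff₀ hem]; linarith)
  have hl1 : 0 ≤ Real.log (2 * w) := Real.log_nonneg (by linarith)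
  -- em * log^2 (1/em) ≤ 1
  have hkey : em * Real.log (1 / em) ^ 2 ≤ 1 := by
    obtain ⟨t, ht⟩ : ∃ t, t = 1 / em := ⟨_, rfl⟩
    have ht0 : 0 < t := by rw [ht]; positivity
    have h3 : Real.log t / 2 / 2 ≤ Real.sqrt (Real.sqrt t) - 1 := by
      have h4 := Real.log_le_sub_one_of_pos (Real.sqrt_pos.2 (Real.sqrt_pos.2 ht0))
      rw [Real.log_sqrt (Real.sqrt_nonneg t), Real.log_sqrt ht0.le] at h4
      exact h4
    have h5 : Real.sqrt (Real.sqrt t) ^ 2 = Real.sqrt t := Real.sq_sqrt (Real.sqrt_nonneg t)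
    have h6 : Real.log t ≤ Real.sqrt t := by
      nlinarith [sq_nonneg (Real.sqrt (Real.sqrt t) - 2)]
    have h7 : Real.log t ^ 2 ≤ t := by
      rw [← ht] at hl0
      have h8 := mul_self_le_mul_self hl0 h6
      rw [Real.mul_self_sqrt ht0.le] at h8
      rw [sq]
      exact h8
    have h9 : em * t = 1 := by rw [ht]; field_simp
    rw [← ht]
    calc em * Real.log t ^ 2 ≤ em * t := mul_le_mul_of_nonneg_left h7 hem.le
      _ = 1 := h9
  rw [hlog]
  have h3 : (1 + (Real.log (2 * w) + Real.log (1 / em))) ^ 2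
      ≤ 2 * (1 + Real.log (2 * w)) ^ 2 + 2 * Real.log (1 / em) ^ 2 := by
    nlinarith [sq_nonneg (1 + Real.log (2 * w) - Real.log (1 / em))]
  have h4 : em * (1 + (Real.log (2 * w) + Real.log (1 / em))) ^ 2
      ≤ 2 * (1 + Real.log (2 * w)) ^ 2 + 2 := by
    have h5 := mul_le_mul_of_nonneg_left h3 hem.le
    have h6 : em * (2 * (1 + Real.log (2 * w)) ^ 2) ≤ 2 * (1 + Real.log (2 * w)) ^ 2 :=
      mul_le_of_le_one_left (by positivity) hem1
    nlinarith
  calc em / w * A * (1 + (Real.log (2 * w) + Real.log (1 / em))) ^ 2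
      ≤ em / w * |A| * (1 + (Real.log (2 * w) + Real.log (1 / em))) ^ 2 := by
        have h7 : A ≤ |A| := le_abs_self A
        gcongr
    _ = |A| / w * (em * (1 + (Real.log (2 * w) + Real.log (1 / em))) ^ 2) := by ring
    _ ≤ |A| / w * (2 * (1 + Real.log (2 * w)) ^ 2 + 2) := by gcongr
    _ = _ := by ring

end Pool.Agent.H74.RM
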