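import Pool.Agent.H74.RM.RowF2
import Pool.Agent.H74.RM.F3b

/-!
Project RM (MP_28724c_co), row F3: the covariances with the Renyi densities are small.
-/

open Finset

namespace Pool.Agent.H74.RM

open Pool.Agent.H92 Pool.Agent.H34.RM

theorem redF3 (hC : RowC2) (hB : RowB3) (a b c d q p : ℝ) (ha : 0 < a) (hb : 0 < b)
    (hd : 0 < d) (hd1 : d ≤ 1) (hq : 0 < q) : ∀ ε : ℝ, 0 < ε → ∃ w0 : ℕ, 1 ≤ w0 ∧
      ∀ (V : Type) [DecidableEq V] (G : SimpleGraph V) [DecidableRel G.Adj]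
        (X Y Z : Finset V) (nu ze : V → ℝ) (w w' : ℕ),
        w0 ≤ w → w0 ≤ w' → IsProb Y nu → IsProb Z ze →
        0 < SS G q p w w' X Y Z nu ze →
        (∀ nu' ze' : V → ℝ, IsProb Y nu' → IsProb Z ze' →
          PP G a b c d q p w w' X Y Z nu' ze' ≤ PP G a b c d q p w w' X Y Z nu ze) →
        ∑ x ∈ X, wt G q p w w' Y Z nu ze x * |CR G d Y nu x|
          ≤ ε * SS G q p w w' X Y Z nu ze := by
  intro ε hε
  obtain ⟨t0, W, ht0, hW⟩ := hC a b d ha hb hd hd1 (ε / 2) (by positivity)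
  set C : ℝ := (2 ^ (1 + d)) ^ (b / (a * d)) with hCdef
  have hC0 : 0 ≤ C := by rw [hCdef]; positivity
  obtain ⟨n, hn⟩ := exists_nat_gt (Real.sqrt (8 * C * 1) * (2 * t0 / ε) ^ 2)
  refine ⟨max (max W 2) (n + 1), (by omega : 1 ≤ n + 1).trans (le_max_right _ _), ?_⟩
  intro V _ G _ X Y Z nu ze w w' hw hw' hnu hze hS hmax
  have hwW : W ≤ w := (le_max_left _ _).trans ((le_max_left _ _).trans hw)
  have hw2 : 2 ≤ w := (le_max_right _ _).trans ((le_max_left _ _).trans hw)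
  have hwn : n + 1 ≤ w := (le_max_right _ _).trans hw
  have hw'1 : 1 ≤ w' := (by omega : 1 ≤ n + 1).trans ((le_max_right _ _).trans hw')
  have hw1 : 1 ≤ w := by omega
  have hwr : (0 : ℝ) < w := by exact_mod_cast hw1
  set S := SS G q p w w' X Y Z nu ze with hSdef
  set π : V → ℝ := fun x => wt G q p w w' Y Z nu ze x / S with hπ
  have hπ0 : ∀ x ∈ X, 0 ≤ π x := fun x _ => div_nonneg (wt_nonneg _ _ _ _ _ _ _ _ _) hS.le
  have hπ1 : ∑ x ∈ X, π x = 1 := by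
    rw [hπ, ← Finset.sum_div]
    exact div_self hS.ne'
  -- the tail
  have htail : ∑ y ∈ Y, nu y * (if t0 < Td d Y nu y then Td d Y nu y else 0) ≤ ε / 2 := by
    refine hW V Y nu (gg G q p w w' X Y Z nu ze) w hnu hwW fun f hf hf1 hpos => ?_
    exact rowC_hyp ha hd hw1 hw'1 hnu hze hS hmax f (fun y _ => hf y) hf1 hpos
  -- the average covariance
  have h2 : ∑ x ∈ X, wt G q p w w' Y Z nu ze x * ((dR G Y nu x - q) / 1) ^ 2
      ≤ 1 * SS G q p w w' X Y Z nu ze := by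
    rw [one_mul]
    unfold SS
    refine Finset.sum_le_sum fun x _ => ?_
    rcases (wt_nonneg (G := G) q p w w' Y Z nu ze x).eq_or_lt with h | h
    · rw [← h, zero_mul]
    · have h3 := wt_pos_ex hw1 h
      have h4 := dR_le_one (G := G) hnu x
      refine mul_le_of_le_one_right h.le ?_
      rw [div_one]
      exact pow_le_one₀ h3.le (by linarith)
  have habs : ∀ x₀, ∑ x ∈ X, π x * |KR G Y nu x x₀| ≤ 1 / w * Real.sqrt (8 * C * 1) := by
    intro x₀
    have h3 := absR ha hb hd hw2 hw'1 hnu hze hmax one_pos zero_le_one h2 x₀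
    have e : ∑ x ∈ X, π x * |KR G Y nu x x₀|
        = (∑ x ∈ X, wt G q p w w' Y Z nu ze x * |KR G Y nu x x₀|) / S := by
      rw [Finset.sum_div]
      exact Finset.sum_congr rfl fun x _ => by rw [hπ]; ring
    rw [e, div_le_iff₀ hS]
    exact h3
  have hdbl : ∑ x ∈ X, ∑ x' ∈ X, π x * π x' * |∑ y ∈ Y, nu y * (rI G x y * rI G x' y)
      - (∑ y ∈ Y, nu y * rI G x y) * ∑ y ∈ Y, nu y * rI G x' y|
      ≤ 1 / w * Real.sqrt (8 * C * 1) := by
    rw [Finset.sum_comm]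
    calc _ = ∑ x' ∈ X, π x' * ∑ x ∈ X, π x * |KR G Y nu x x'| := by
          refine Finset.sum_congr rfl fun x' _ => ?_
          rw [Finset.mul_sum]
          refine Finset.sum_congr rfl fun x _ => ?_
          rw [show KR G Y nu x x' = ∑ y ∈ Y, nu y * (rI G x y * rI G x' y)
            - (∑ y ∈ Y, nu y * rI G x y) * ∑ y ∈ Y, nu y * rI G x' y from rfl]
          ring
      _ ≤ ∑ x' ∈ X, π x' * (1 / w * Real.sqrt (8 * C * 1)) :=
          Finset.sum_le_sum fun x' hx' => mul_le_mul_of_nonneg_left (habs x') (hπ0 x' hx')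
      _ = _ := by rw [← Finset.sum_mul, hπ1, one_mul]
  have hsq : t0 * Real.sqrt (∑ x ∈ X, ∑ x' ∈ X, π x * π x' *
      |∑ y ∈ Y, nu y * (rI G x y * rI G x' y)
      - (∑ y ∈ Y, nu y * rI G x y) * ∑ y ∈ Y, nu y * rI G x' y|) ≤ ε / 2 := by
    have h3 : ∑ x ∈ X, ∑ x' ∈ X, π x * π x' * |∑ y ∈ Y, nu y * (rI G x y * rI G x' y)
      - (∑ y ∈ Y, nu y * rI G x y) * ∑ y ∈ Y, nu y * rI G x' y| ≤ (ε / (2 * t0)) ^ 2 := by
      refine hdbl.trans ?_
      rw [one_div_mul_eq_div, div_le_iff₀ hwr]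
      have h4 : (n : ℝ) + 1 ≤ w := by exact_mod_cast hwn
      have h5 : Real.sqrt (8 * C * 1) * (2 * t0 / ε) ^ 2 ≤ w := by linarith
      have h6 : 0 < (ε / (2 * t0)) ^ 2 := by positivity
      calc Real.sqrt (8 * C * 1)
          = (ε / (2 * t0)) ^ 2 * (Real.sqrt (8 * C * 1) * (2 * t0 / ε) ^ 2) := by
            field_simp
        _ ≤ _ := mul_le_mul_of_nonneg_left h5 h6.le
    have h7 := Real.sqrt_le_sqrt h3
    rw [Real.sqrt_sq (by positivity)] at h7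
    calc _ ≤ t0 * (ε / (2 * t0)) := mul_le_mul_of_nonneg_left h7 ht0.le
      _ = ε / 2 := by field_simp
  have hB3 := hB V (rI G) X Y nu (Td d Y nu) π t0 hnu rI_nonneg rI_le_one
    (fun y => Td_nonneg hnu y) hπ0 hπ1 ht0.le
  have hfin : ∑ x ∈ X, π x * |CR G d Y nu x| ≤ ε := by
    have e : ∀ x ∈ X, π x * |CR G d Y nu x| = π x * |∑ y ∈ Y, nu y * (rI G x y * Td d Y nu y)
          - (∑ y ∈ Y, nu y * rI G x y) * ∑ y ∈ Y, nu y * Td d Y nu y| := by
      intro x _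
      rw [sum_Td hd hnu, mul_one]
      rfl
    rw [Finset.sum_congr rfl e]
    linarith
  have e2 : ∑ x ∈ X, wt G q p w w' Y Z nu ze x * |CR G d Y nu x|
      = S * ∑ x ∈ X, π x * |CR G d Y nu x| := by
    rw [Finset.mul_sum]
    refine Finset.sum_congr rfl fun x _ => ?_
    rw [hπ]
    field_simp
  rw [e2, mul_comm ε]
  exact mul_le_mul_of_nonneg_left hfin hS.le

/-- ROW F3. -/
theorem rowF3 (hC : RowC2) (hB : RowB3) : RowF3 := by
  intro a b c d q p ha hb hc hd hd1 hq _ hp _ ε hε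
  obtain ⟨w1, _, h1⟩ := redF3 hC hB a b c d q p ha hb hd hd1 hq ε hε
  obtain ⟨w2, _, h2⟩ := redF3 hC hB a c b d p q ha hc hd hd1 hp ε hε
  refine ⟨max w1 w2, ?_⟩
  intro V _ G _ X Y Z nu ze w w' hw hw' hnu hze hS hmax
  have a1 : w1 ≤ w := (le_max_left _ _).trans hw
  have a2 : w2 ≤ w := (le_max_right _ _).trans hw
  have b1 : w1 ≤ w' := (le_max_left _ _).trans hw'
  have b2 : w2 ≤ w' := (le_max_right _ _).trans hw'
  refine ⟨h1 V G X Y Z nu ze w w' a1 b1 hnu hze hS hmax, ?_⟩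
  have h3 := h2 V Gᶜ X Z Y ze nu w' w b2 a2 hze hnu (by rw [SS_compl]; exact hS)
    (fun nu' ze' h4 h5 => by
      rw [PP_compl, PP_compl]
      exact hmax ze' nu' h5 h4)
  simp only [SS_compl, wt_compl, CR_compl] at h3
  exact h3

end Pool.Agent.H74.RM
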